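import Pool.Agent.H.MP_1ae31d_co.B

set_option autoImplicit false

namespace Pool.Agent.Results.MP_1ae31d_co.Yes

open Pool.Agent.H.MP_1ae31d_co

theorem result {α : Type} (M : Matroid α) [M.Finite] (r : ℕ) (hr : M.eRank = r)
    (hpav : ∀ C, M.IsCircuit C → r ≤ C.ncard) (z : ℂ)
    (hz : ∑ k ∈ Finset.range (r + 1), ({I : Set α | M.Indep I ∧ I.ncard = k}.ncard : ℂ) *
      z ^ k * (1 - z) ^ (M.E.ncard - k) = 0) : ‖z‖ ≤ 1 := by
  classical
  set E : Finset α := M.ground_finite.toFinset with hE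
  have hEc : (E : Set α) = M.E := Set.Finite.coe_toFinset _
  have hm : M.E.ncard = E.card := by rw [← hEc, Set.ncard_coe_finset]
  have hf : ∀ k, {I : Set α | M.Indep I ∧ I.ncard = k}.ncard =
      ((E.powersetCard k).filter fun X : Finset α => M.Indep X).card := by
    intro k
    rw [← Set.ncard_coe_finset, ← Set.ncard_image_of_injective _ Finset.coe_injective]
    congr 1
    ext I
    simp only [Set.mem_ofPred_eq, Set.mem_image, Finset.mem_coe, Finset.mem_filter,
      Finset.mem_powersetCard]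
    constructor
    · rintro ⟨h1, h2⟩
      obtain ⟨X, rfl⟩ := (M.ground_finite.subset h1.subset_ground).exists_finset_coe
      refine ⟨X, ⟨⟨?_, by rwa [Set.ncard_coe_finset] at h2⟩, h1⟩, rfl⟩
      rw [← Finset.coe_subset, hEc]
      exact h1.subset_ground
    · rintro ⟨X, ⟨⟨_, h2⟩, h3⟩, rfl⟩
      exact ⟨h3, by rwa [Set.ncard_coe_finset]⟩
  have hsm : ∀ X : Finset α, X ⊆ E → X.card < r → M.Indep X := by
    intro X h1 h2
    by_contra h3
    have h4 : (X : Set α) ⊆ M.E := by rw [← hEc]; exact_mod_cast h1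
    obtain ⟨C, hC, hC2⟩ := (M.dep_of_not_indep h3 h4).exists_isCircuit_subset
    have h5 := Set.ncard_le_ncard hC X.finite_toSet
    rw [Set.ncard_coe_finset] at h5
    have := hpav C hC2
    omega
  set B := (E.powersetCard r).filter fun X : Finset α => M.Indep X with hB
  have hne : B.Nonempty := by
    obtain ⟨W, hW⟩ := M.exists_isBase
    obtain ⟨X, rfl⟩ := (M.ground_finite.subset hW.subset_ground).exists_finset_coe
    have h1 := hW.encard_eq_eRank
    rw [hr, Set.encard_coe_eq_coe_finsetCard] at h1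
    refine ⟨X, Finset.mem_filter.2 ⟨Finset.mem_powersetCard.2 ⟨?_, by exact_mod_cast h1⟩,
      hW.indep⟩⟩
    rw [← Finset.coe_subset, hEc]
    exact hW.subset_ground
  have hfam : Fam E r B := by
    constructor
    · intro X hX
      exact Finset.mem_powersetCard.1 (Finset.mem_filter.1 hX).1
    · intro I hI hc W hW
      obtain ⟨h1, h2⟩ := Finset.mem_filter.1 hW
      obtain ⟨h3, h4⟩ := Finset.mem_powersetCard.1 h1
      obtain ⟨x, hx, hxI, h5⟩ := (hsm I hI (by omega)).augment_finset h2 (by omega)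
      refine ⟨x, hx, hxI, Finset.mem_filter.2 ⟨Finset.mem_powersetCard.2
        ⟨Finset.insert_subset (h3 hx) hI, ?_⟩, by rwa [Finset.coe_insert]⟩⟩
      rw [Finset.card_insert_of_notMem hxI, hc]
  obtain ⟨d, hd⟩ : ∃ d, E.card = d + r := by
    obtain ⟨X, hX⟩ := hne
    obtain ⟨h1, h2⟩ := hfam.sub X hX
    have := Finset.card_le_card h1
    exact ⟨E.card - r, by omega⟩
  refine core E d r B hd hfam hne z ?_
  rw [Finset.sum_range_succ, hf r, hm, hd, Nat.add_sub_cancel] at hz
  rw [← hz]
  congr 1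
  refine Finset.sum_congr rfl fun k hk => ?_
  rw [hf k, Finset.filter_true_of_mem, Finset.card_powersetCard, hd]
  intro X hX
  obtain ⟨h1, h2⟩ := Finset.mem_powersetCard.1 hX
  exact hsm X h1 (by have := Finset.mem_range.1 hk; omega)

end Pool.Agent.Results.MP_1ae31d_co.Yes
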